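import Pool.Agent.Y472.A.Defs

/-!
# Task CB3-BAS: the family `g_{j,k}` is a basis
-/

set_option autoImplicit false

namespace Pool.Agent.Y494.CB

open Finset Pool.Agent.Y472

/-- homogeneous of degree `D` -/
def Hom (D : ℕ) (x : V2) : Prop := ∀ a b, a + b ≠ D → x a b = 0

theorem hv_hom (w l : ℂ) (j : ℕ) : Hom j (hv w l j) := by
  intro a b h
  unfold hv
  rw [if_neg h]

theorem F2_hom {w l : ℂ} {D : ℕ} {x : V2} (hx : Hom D x) : Hom (D + 1) (F2 w l x) := by
  intro a b h
  show qi w a * x (a - 1) b + (KK w l a)⁻¹ * qi w b * x a (b - 1) = 0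
  have q0 : qi w 0 = 0 := by simp [qi, cb]
  have h1 : qi w a * x (a - 1) b = 0 := by
    rcases a with _ | a
    · simp [q0]
    · rw [hx _ _ (by simp only [Nat.add_sub_cancel]; omega), mul_zero]
  have h2 : (KK w l a)⁻¹ * qi w b * x a (b - 1) = 0 := by
    rcases b with _ | b
    · simp [q0]
    · rw [hx _ _ (by simp only [Nat.add_sub_cancel]; omega), mul_zero]
  rw [h1, h2, add_zero]

theorem F2_pow_hom {w l : ℂ} {D : ℕ} {x : V2} (hx : Hom D x) (k : ℕ) :
    Hom (D + k) ((F2 w l)^[k] x) := by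
  induction k with
  | zero => exact hx
  | succ k ih =>
    rw [Function.iterate_succ_apply']
    exact F2_hom ih

theorem gv_hom (w l : ℂ) (j k : ℕ) : Hom (j + k) (gv w l j k) := F2_pow_hom (hv_hom w l j) k

theorem hv_val (w l : ℂ) (j : ℕ) : hv w l j 0 j = 1 := by
  unfold hv
  simp

theorem gv_succ (w l : ℂ) (j k : ℕ) : gv w l j (k + 1) = F2 w l (gv w l j k) := by
  unfold gv
  rw [Function.iterate_succ_apply']

theorem gv_add (w l : ℂ) (j k t : ℕ) : (F2 w l)^[t] (gv w l j k) = gv w l j (k + t) := by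
  unfold gv
  rw [← Function.iterate_add_apply, add_comm]

theorem F2_pow_T2 (hT : S_SIGT) {N : ℕ} {w l : ℂ} (hR : Rt N w) (hl : l ≠ 0) {x : V2}
    (hx : x ∈ T2 N) (k : ℕ) : (F2 w l)^[k] x ∈ T2 N := by
  induction k with
  | zero => exact hx
  | succ k ih =>
    rw [Function.iterate_succ_apply']
    exact (hT N w l hR hl).2.2.2.1 _ ih

theorem qi_ne {N : ℕ} {w : ℂ} (hR : Rt N w) {t : ℕ} (h0 : 0 < t) (ht : t < N) :
    qi w (t : ℤ) ≠ 0 := by
  have hw : w ≠ 0 := by
    intro h
    have := hR.nrm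
    rw [h, norm_zero] at this
    exact zero_ne_one this
  unfold qi cb
  intro h
  rw [sub_eq_zero, zpow_natCast] at h
  have h1 : (w ^ 2) ^ t = 1 := by
    rw [← pow_mul, mul_comm, pow_mul, sq]
    nth_rewrite 2 [h]
    exact mul_inv_cancel₀ (pow_ne_zero _ hw)
  exact hR.prim.pow_ne_one_of_pos_of_lt h0.ne' ht h1

theorem cb_ne {y : ℂ} (h : ‖y‖ ≠ 1) (h0 : y ≠ 0) : cb y ≠ 0 := by
  unfold cb
  intro h1
  rw [sub_eq_zero] at h1
  apply h
  have h2 : ‖y‖ * ‖y‖ = 1 := by
    rw [← norm_mul]
    nth_rewrite 2 [h1]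
    rw [mul_inv_cancel₀ h0, norm_one]
  nlinarith [norm_nonneg y]

theorem w_ne {N : ℕ} {w : ℂ} (hR : Rt N w) : w ≠ 0 := by
  intro h
  have := hR.nrm
  rw [h, norm_zero] at this
  exact zero_ne_one this

theorem cb_l_ne {N : ℕ} {w l : ℂ} (hR : Rt N w) (hl : Gl l) {n : ℕ} (hn : n ≠ 0) (k : ℤ) :
    cb (l ^ n * w ^ k) ≠ 0 := by
  apply cb_ne
  · rw [norm_mul, norm_zpow, hR.nrm, one_zpow, mul_one, norm_pow]
    intro h
    exact hl.nrm ((pow_eq_one_iff_of_nonneg (norm_nonneg _) hn).1 h)
  · exact mul_ne_zero (pow_ne_zero _ hl.ne) (zpow_ne_zero _ (w_ne hR))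

theorem bas : S_BAS := by
  intro hHV h1 h2 hT hNil N w l hR hl hdet
  obtain ⟨v, hv0, hv1⟩ := Matrix.exists_mulVec_eq_zero_iff.2 hdet
  apply hv0
  have hH := hHV h1 h2 hT N w l hR hl
  have hTT := hT N w l hR hl.ne
  have hgT : ∀ j < N, ∀ k, gv w l j k ∈ T2 N := fun j hj k =>
    F2_pow_T2 hT hR hl.ne (hH j hj).1 k
  -- the linear relation
  have hrel : ∑ p : Fin N × Fin N, v p • gv w l p.1 p.2 = 0 := by
    funext a b
    rw [Finset.sum_apply, Finset.sum_apply]
    by_cases hab : a < N ∧ b < N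
    · have := congrFun hv1 (⟨a, hab.1⟩, ⟨b, hab.2⟩)
      rw [Matrix.mulVec, dotProduct] at this
      simp only [mG] at this
      simp only [Pi.smul_apply, smul_eq_mul, Pi.zero_apply] at this ⊢
      rw [← this]
      exact Finset.sum_congr rfl fun p _ => mul_comm _ _
    · show _ = (0 : ℂ)
      refine Finset.sum_eq_zero fun p _ => ?_
      rw [Pi.smul_apply, Pi.smul_apply, hgT p.1 p.1.2 p.2 a b (by
        by_contra hcon
        apply hab
        push Not at hcon
        exact hcon), smul_zero]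
  -- the factors
  let fc : ℕ → ℕ → ℂ := fun j k => ∏ t ∈ range k,
    (qi w (t + 1) * cb (l ^ 2 * w ^ (-1 - 2 * (j : ℤ) - (t + 1))))
  have hfc : ∀ j k, k < N → fc j k ≠ 0 := by
    intro j k hk
    refine Finset.prod_ne_zero_iff.2 fun t ht => ?_
    rw [Finset.mem_range] at ht
    refine mul_ne_zero ?_ (cb_l_ne hR hl two_ne_zero _)
    have := qi_ne hR (t := t + 1) (by omega) (by omega)
    push_cast at this
    exact this
  have hE : ∀ j < N, ∀ k i, ((E2 w l) ^ k) (gv w l j (k + i)) =
      (∏ t ∈ range k, (qi w ((t + i : ℕ) + 1) * cb (l ^ 2 * w ^ (-1 - 2 * (j : ℤ) - ((t + i : ℕ) + 1))))) •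
        gv w l j i := by
    intro j hj k
    induction k with
    | zero => intro i; simp
    | succ k ih =>
      intro i
      have e1 : k + 1 + i = k + (i + 1) := by ring
      rw [pow_succ', Module.End.mul_apply, e1, ih (i + 1), map_smul, ((hH j hj).2.2 i).1, smul_smul,
        Finset.prod_range_succ']
      congr 1
      congr 1
      · refine Finset.prod_congr rfl fun t _ => ?_
        have e2 : t + (i + 1) = t + 1 + i := by ring
        rw [e2]
      · simp
  have hE0 : ∀ j < N, ∀ k K, k < K → ((E2 w l) ^ K) (gv w l j k) = 0 := by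
    intro j hj k K hk
    obtain ⟨m, rfl⟩ : ∃ m, K = m + 1 + k := ⟨K - 1 - k, by omega⟩
    have := hE j hj k 0
    rw [add_zero] at this
    have h3 : E2 w l (gv w l j 0) = 0 := (hH j hj).2.1
    have h4 : ((E2 w l) ^ (m + 1)) (gv w l j 0) = 0 := by
      rw [pow_succ, Module.End.mul_apply, h3, map_zero]
    rw [pow_add, Module.End.mul_apply, this, map_smul, h4, smul_zero]
  -- induction
  have key : ∀ n ≤ N, ∀ p : Fin N × Fin N, N - n ≤ p.2 → v p = 0 := by
    intro n
    induction n with
    | zero =>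
      intro _ p hp
      exact absurd p.2.2 (by omega)
    | succ n ih =>
      intro hn p hp
      by_cases hp2 : N - n ≤ p.2
      · exact ih (by omega) p hp2
      have hpk : (p.2 : ℕ) = N - (n + 1) := by omega
      set K := N - (n + 1) with hK
      have h3 := congrArg ((E2 w l) ^ K) hrel
      rw [map_sum, map_zero] at h3
      have h4 := congrFun (congrFun h3 0) (p.1 : ℕ)
      rw [Finset.sum_apply, Finset.sum_apply, Finset.sum_eq_single p] at h4
      · have h5 := hE p.1 p.1.2 K 0
        rw [add_zero] at h5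
        rw [map_smul, hpk, h5] at h4
        have h6 : gv w l p.1 0 0 p.1 = 1 := hv_val w l p.1
        simp only [Pi.smul_apply, smul_eq_mul, h6, Pi.zero_apply, mul_one] at h4
        rcases mul_eq_zero.1 h4 with h4 | h4
        · exact h4
        · exfalso
          refine hfc p.1 K (by omega) ?_
          rw [← h4]
          refine Finset.prod_congr rfl fun t _ => ?_
          rw [add_zero]
      · intro p' _ hp'
        rw [map_smul]
        by_cases hlt : K < (p'.2 : ℕ)
        · rw [ih (by omega) p' (by omega), zero_smul]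
          rfl
        rcases lt_or_eq_of_le (not_lt.1 hlt) with hlt | heq
        · rw [hE0 p'.1 p'.1.2 _ _ hlt, smul_zero]
          rfl
        · have h5 := hE p'.1 p'.1.2 K 0
          rw [add_zero] at h5
          have h7 : (p'.1 : ℕ) ≠ p.1 := by
            intro h
            apply hp'
            refine Prod.ext (Fin.ext h) (Fin.ext ?_)
            rw [heq, hpk]
          have h6 : gv w l p'.1 0 0 p.1 = 0 := by
            refine gv_hom w l p'.1 0 0 p.1 ?_
            omega
          rw [heq, h5]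
          simp only [Pi.smul_apply, smul_eq_mul, h6, mul_zero]
      · intro h
        exact absurd (Finset.mem_univ p) h
  funext p
  exact key N le_rfl p (by omega)

end Pool.Agent.Y494.CB
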