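import Pool.Agent.Y494.CB.Bas

/-!
# Task CB3-PT: the partial trace formula
-/

set_option autoImplicit false

namespace Pool.Agent.Y494.CB

open Finset Pool.Agent.Y472

/-- the matrix of an operator, restricted to indices `< N` -/
noncomputable def mL (N : ℕ) (L : V2 →ₗ[ℂ] V2) : Matrix (Fin N × Fin N) (Fin N × Fin N) ℂ :=
  fun p p' => L (dl p'.1 p'.2) p.1 p.2

theorem sum_dl {N : ℕ} {x : V2} (hx : x ∈ T2 N) :
    x = ∑ p : Fin N × Fin N, x p.1 p.2 • dl p.1 p.2 := by
  funext a b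
  rw [Finset.sum_apply, Finset.sum_apply]
  by_cases hab : a < N ∧ b < N
  · rw [Finset.sum_eq_single (⟨a, hab.1⟩, ⟨b, hab.2⟩)]
    · simp [dl]
    · intro p _ hp
      have : ¬ (a = p.1 ∧ b = p.2) := by
        rintro ⟨h1, h2⟩
        apply hp
        exact Prod.ext (Fin.ext h1.symm) (Fin.ext h2.symm)
      simp [dl, this]
    · intro h
      exact absurd (Finset.mem_univ _) h
  · rw [hx a b (by by_contra h; apply hab; push Not at h; exact h)]
    symm
    refine Finset.sum_eq_zero fun p _ => ?_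
    have : ¬ (a = p.1 ∧ b = p.2) := by
      rintro ⟨h1, h2⟩
      apply hab
      rw [h1, h2]
      exact ⟨p.1.2, p.2.2⟩
    simp [dl, this]

/-- the coefficients in the basis `g` -/
noncomputable def cf (N : ℕ) (w l : ℂ) (p : Fin N × Fin N) (x : V2) : ℂ :=
  ∑ p', (mG N w l)⁻¹ p p' * x p'.1 p'.2

theorem cf_smul (N : ℕ) (w l : ℂ) (p : Fin N × Fin N) (c : ℂ) (x : V2) :
    cf N w l p (c • x) = c * cf N w l p x := by
  unfold cf
  rw [Finset.mul_sum]
  refine Finset.sum_congr rfl fun p' _ => ?_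
  simp only [Pi.smul_apply, smul_eq_mul]
  ring

theorem cf_zero (N : ℕ) (w l : ℂ) (p : Fin N × Fin N) : cf N w l p 0 = 0 := by
  unfold cf
  exact Finset.sum_eq_zero fun p' _ => by simp

theorem cf_sum {ι : Type*} (s : Finset ι) (N : ℕ) (w l : ℂ) (p : Fin N × Fin N) (x : ι → V2) :
    cf N w l p (∑ i ∈ s, x i) = ∑ i ∈ s, cf N w l p (x i) := by
  unfold cf
  rw [Finset.sum_comm]
  refine Finset.sum_congr rfl fun p' _ => ?_
  rw [Finset.sum_apply, Finset.sum_apply, Finset.mul_sum]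

theorem cf_gv {N : ℕ} {w l : ℂ} (hd : (mG N w l).det ≠ 0) (p p' : Fin N × Fin N) :
    cf N w l p (gv w l p'.1 p'.2) = if p = p' then 1 else 0 := by
  have h := Matrix.nonsing_inv_mul (mG N w l) (isUnit_iff_ne_zero.2 hd)
  have h1 := congrFun (congrFun h p) p'
  rw [Matrix.mul_apply, Matrix.one_apply] at h1
  exact h1

theorem cf_expand {N : ℕ} {w l : ℂ} (hd : (mG N w l).det ≠ 0)
    (hg : ∀ j < N, ∀ k, gv w l j k ∈ T2 N) {x : V2} (hx : x ∈ T2 N) :
    x = ∑ p : Fin N × Fin N, cf N w l p x • gv w l p.1 p.2 := by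
  funext a b
  rw [Finset.sum_apply, Finset.sum_apply]
  by_cases hab : a < N ∧ b < N
  · have h := Matrix.mul_nonsing_inv (mG N w l) (isUnit_iff_ne_zero.2 hd)
    have h1 : ∀ v : Fin N × Fin N → ℂ, (mG N w l).mulVec ((mG N w l)⁻¹.mulVec v) = v := by
      intro v
      rw [Matrix.mulVec_mulVec, h, Matrix.one_mulVec]
    have h2 := congrFun (h1 fun p => x p.1 p.2) (⟨a, hab.1⟩, ⟨b, hab.2⟩)
    rw [Matrix.mulVec, dotProduct] at h2
    simp only at h2
    rw [← h2]
    refine Finset.sum_congr rfl fun p _ => ?_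
    simp only [mG, Pi.smul_apply, smul_eq_mul]
    rw [mul_comm]
    rfl
  · rw [hx a b (by by_contra h; apply hab; push Not at h; exact h)]
    symm
    refine Finset.sum_eq_zero fun p _ => ?_
    rw [Pi.smul_apply, Pi.smul_apply, hg p.1 p.1.2 p.2 a b (by
      by_contra h; apply hab; push Not at h; exact h), smul_zero]

theorem tr_G {N : ℕ} {w l : ℂ} (hd : (mG N w l).det ≠ 0)
    (hg : ∀ j < N, ∀ k, gv w l j k ∈ T2 N) (L : V2 →ₗ[ℂ] V2) :
    ∑ q ∈ range N, ∑ s ∈ range N, L (dl q s) q s =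
      ∑ p : Fin N × Fin N, cf N w l p (L (gv w l p.1 p.2)) := by
  have h1 : ∑ q ∈ range N, ∑ s ∈ range N, L (dl q s) q s = (mL N L).trace := by
    rw [Matrix.trace, Fintype.sum_prod_type, Finset.sum_range]
    refine Finset.sum_congr rfl fun q _ => ?_
    rw [Finset.sum_range]
    rfl
  have h2 : mL N L = mL N L * mG N w l * (mG N w l)⁻¹ := by
    rw [Matrix.mul_assoc, Matrix.mul_nonsing_inv _ (isUnit_iff_ne_zero.2 hd), Matrix.mul_one]
  have h3 : ∀ p p', (mL N L * mG N w l) p p' = L (gv w l p'.1 p'.2) p.1 p.2 := by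
    intro p p'
    rw [Matrix.mul_apply]
    conv_rhs => rw [sum_dl (hg p'.1 p'.1.2 p'.2), map_sum, Finset.sum_apply, Finset.sum_apply]
    refine Finset.sum_congr rfl fun p'' _ => ?_
    rw [map_smul]
    simp only [Pi.smul_apply, smul_eq_mul, mL, mG]
    ring
  rw [h1, h2, Matrix.trace_mul_comm, Matrix.trace]
  refine Finset.sum_congr rfl fun p _ => ?_
  rw [Matrix.diag_apply, Matrix.mul_apply]
  unfold cf
  refine Finset.sum_congr rfl fun p' _ => ?_
  rw [h3]

/-- the pointwise multiplication by a function -/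
def Mu (κ : ℕ → ℕ → ℂ) : V2 →ₗ[ℂ] V2 where
  toFun x a b := κ a b * x a b
  map_add' x y := by funext a b; simp only [Pi.add_apply]; ring
  map_smul' c x := by funext a b; simp only [Pi.smul_apply, smul_eq_mul, RingHom.id_apply]; ring

theorem Mu_hom {κ : ℕ → ℕ → ℂ} {D : ℕ} {c : ℂ} (hκ : ∀ a b, a + b = D → κ a b = c) {x : V2}
    (hx : Hom D x) : Mu κ x = c • x := by
  funext a b
  show κ a b * x a b = c * x a b
  by_cases h : a + b = D
  · rw [hκ a b h]
  · rw [hx a b h, mul_zero, mul_zero]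

theorem pt : S_PT := by
  intro hDEC hDDS hBAS hTH hNIL hHAT hT hQV hVWP hHV h1 h2 N w l hR hl X hX hXh
  have hd := hBAS hHV h1 h2 hT hNIL N w l hR hl
  have hH := hHV h1 h2 hT N w l hR hl
  have hg : ∀ j < N, ∀ k, gv w l j k ∈ T2 N := fun j hj k =>
    F2_pow_T2 hT hR hl.ne (hH j hj).1 k
  have hdec := hDEC hVWP hTH hHV h1 h2 hT hNIL N w l hR hl
  have hdds := hDDS hQV N w l hR hl
  have hth := hTH hNIL N w l hR hl
  have hhat := (hHAT hTH hNIL N w l hR hl X X hX hX).2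
  have hw := w_ne hR
  set G0 : ℂ := (KK w l 0)⁻¹ with hG0
  -- the two operators
  let Y : V2 →ₗ[ℂ] V2 :=
    { toFun := fun m => X (io m) 0
      map_add' := fun x y => by simp only [map_add, Pi.add_apply]
      map_smul' := fun k x => by simp only [map_smul, Pi.smul_apply, RingHom.id_apply] }
  have hL : ∑ q ∈ range N, ∑ s ∈ range N, KK w l q * KK w l s * X (io (dl q s)) 0 q s =
      ∑ p : Fin N × Fin N, cf N w l p (Mu (fun a b => KK w l a * KK w l b) (Y (gv w l p.1 p.2))) :=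
    tr_G hd hg ((Mu fun a b => KK w l a * KK w l b) ∘ₗ Y)
  have hRt : ∑ q ∈ range N, ∑ s ∈ range N, dd N w l (q + s) * hat w l X (dl q s) q s =
      ∑ p : Fin N × Fin N, cf N w l p (Mu (fun a b => dd N w l (a + b)) (hat w l X (gv w l p.1 p.2))) :=
    tr_G hd hg ((Mu fun a b => dd N w l (a + b)) ∘ₗ hat w l X)
  rw [hL, hRt]
  -- homogeneity
  have hhg : ∀ j r, Hom (j + r) (hat w l X (gv w l j r)) := fun j r =>
    hXh _ _ (gv_hom w l j r)
  have hF3X : ∀ (t : ℕ) (x : V3), X ((F3 w l)^[t] x) = (F3 w l)^[t] (X x) := by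
    intro t
    induction t with
    | zero => intro x; rfl
    | succ t ih =>
      intro x
      rw [Function.iterate_succ_apply, Function.iterate_succ_apply, ih, hX.f]
  have hY : ∀ j < N, ∀ k < N, Y (gv w l j k) =
      ∑ r ∈ range (k + 1), (aa w l j k r * G0 ^ (k - r)) • (F2 w l)^[k - r] (hat w l X (gv w l j r)) := by
    intro j hj k hk
    show X (io (gv w l j k)) 0 = _
    rw [(hdec j hj k hk).2, map_sum, Finset.sum_apply]
    refine Finset.sum_congr rfl fun r _ => ?_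
    rw [map_smul, Pi.smul_apply, hF3X, hth.2.2.2.2.1, hhat.1, hth.2.1, mul_smul]
    rfl
  have hYh : ∀ j < N, ∀ k < N, Hom (j + k) (Y (gv w l j k)) := by
    intro j hj k hk
    rw [hY j hj k hk]
    intro a b hab
    rw [Finset.sum_apply, Finset.sum_apply]
    refine Finset.sum_eq_zero fun r hr => ?_
    rw [Finset.mem_range] at hr
    rw [Pi.smul_apply, Pi.smul_apply, F2_pow_hom (hhg j r) (k - r) a b (by omega), smul_zero]
  have hκ : ∀ D a b : ℕ, a + b = D → KK w l a * KK w l b = l ^ 2 * w ^ (-2 - 2 * (D : ℤ)) := by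
    intro D a b h
    unfold KK
    rw [mul_mul_mul_comm, ← zpow_add₀ hw, ← sq]
    congr 2
    rw [← h]
    push_cast
    ring
  -- the coefficients of `F2 ^ t`
  have hgN : ∀ j < N, ∀ k, N ≤ k → gv w l j k = 0 := by
    intro j hj k hk
    obtain ⟨m, rfl⟩ := Nat.exists_eq_add_of_le hk
    rw [← gv_add]
    unfold gv
    rw [(hNIL N w l hR hl.ne _ (hH j hj).1).2]
    induction m with
    | zero => rfl
    | succ m ih => rw [Function.iterate_succ_apply, map_zero, ih (by omega)]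
  have hF2s : ∀ (t : ℕ) (x : Fin N × Fin N → V2) (c : Fin N × Fin N → ℂ),
      (F2 w l)^[t] (∑ p, c p • x p) = ∑ p, c p • (F2 w l)^[t] (x p) := by
    intro t x c
    rw [← Module.End.coe_pow, map_sum]
    refine Finset.sum_congr rfl fun p _ => ?_
    rw [map_smul]
  have hcF : ∀ (p : Fin N × Fin N) (r : ℕ) (hr : r ≤ p.2) (x : V2), x ∈ T2 N →
      cf N w l p ((F2 w l)^[p.2 - r] x) = cf N w l (p.1, ⟨r, lt_of_le_of_lt hr p.2.2⟩) x := by
    intro p r hr x hx
    conv_lhs => rw [cf_expand hd hg hx]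
    rw [hF2s, cf_sum, Finset.sum_eq_single (p.1, ⟨r, lt_of_le_of_lt hr p.2.2⟩)]
    · rw [cf_smul, gv_add]
      have e1 : ((⟨r, lt_of_le_of_lt hr p.2.2⟩ : Fin N) : ℕ) + (p.2 - r) = p.2 := by
        show r + ((p.2 : ℕ) - r) = p.2
        omega
      have e0 : cf N w l p (gv w l p.1 p.2) = 1 := by rw [cf_gv hd, if_pos rfl]
      rw [e1]
      show _ * cf N w l p (gv w l p.1 p.2) = _
      rw [e0, mul_one]
    · intro p' _ hp'
      rw [cf_smul, gv_add]
      by_cases h : (p'.2 : ℕ) + (p.2 - r) < N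
      · have := cf_gv (N := N) (w := w) (l := l) hd p (p'.1, ⟨(p'.2 : ℕ) + (p.2 - r), h⟩)
        simp only at this
        rw [this, if_neg, mul_zero]
        intro hpp
        apply hp'
        have h3 := congrArg (fun z : Fin N × Fin N => (z.2 : ℕ)) hpp
        have h4 := congrArg (fun z : Fin N × Fin N => z.1) hpp
        simp only at h3 h4
        refine Prod.ext h4.symm (Fin.ext ?_)
        show (p'.2 : ℕ) = r
        omega
      · rw [hgN p'.1 p'.1.2 _ (not_lt.1 h), cf_zero, mul_zero]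
    · intro h
      exact absurd (Finset.mem_univ _) h
  -- evaluation
  have e1 : ∀ p : Fin N × Fin N,
      cf N w l p (Mu (fun a b => KK w l a * KK w l b) (Y (gv w l p.1 p.2))) =
      ∑ r : Fin N, if r ≤ p.2 then l ^ 2 * w ^ (-2 - 2 * ((p.1 : ℤ) + (p.2 : ℕ))) *
        (aa w l p.1 p.2 r * G0 ^ ((p.2 : ℕ) - r)) * cf N w l (p.1, r) (hat w l X (gv w l p.1 r)) else 0 := by
    intro p
    rw [Mu_hom (hκ ((p.1 : ℕ) + p.2)) (hYh p.1 p.1.2 p.2 p.2.2), cf_smul, hY p.1 p.1.2 p.2 p.2.2,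
      cf_sum, Finset.mul_sum]
    have h3 : range ((p.2 : ℕ) + 1) ⊆ range N := by
      intro r hr
      rw [Finset.mem_range] at *
      have := p.2.2
      omega
    have h4 : ∀ r ∈ range ((p.2 : ℕ) + 1), l ^ 2 * w ^ (-2 - 2 * (((p.1 : ℕ) + p.2 : ℕ) : ℤ)) *
        cf N w l p ((aa w l p.1 p.2 r * G0 ^ ((p.2 : ℕ) - r)) • (F2 w l)^[(p.2 : ℕ) - r]
          (hat w l X (gv w l p.1 r))) =
        (fun r : ℕ => if h : r ≤ p.2 then l ^ 2 * w ^ (-2 - 2 * ((p.1 : ℤ) + (p.2 : ℕ))) *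
        (aa w l p.1 p.2 r * G0 ^ ((p.2 : ℕ) - r)) *
          cf N w l (p.1, ⟨r, lt_of_le_of_lt h p.2.2⟩) (hat w l X (gv w l p.1 r)) else 0) r := by
      intro r hr
      rw [Finset.mem_range] at hr
      have hr' : r ≤ p.2 := by omega
      simp only [dif_pos hr']
      rw [cf_smul, hcF p r hr' _ (hhat.2 _ (hg p.1 p.1.2 r))]
      push_cast
      ring
    rw [Finset.sum_congr rfl h4, Finset.sum_subset h3, Finset.sum_range]
    · refine Finset.sum_congr rfl fun r _ => ?_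
      by_cases hr : r ≤ p.2
      · have hr' : (r : ℕ) ≤ p.2 := hr
        rw [if_pos hr, dif_pos hr']
      · have hr' : ¬ (r : ℕ) ≤ p.2 := hr
        rw [if_neg hr, dif_neg hr']
    · intro r _ hr
      rw [Finset.mem_range] at hr
      exact dif_neg (by omega)
  have e2 : ∀ p : Fin N × Fin N,
      cf N w l p (Mu (fun a b => dd N w l (a + b)) (hat w l X (gv w l p.1 p.2))) =
      dd N w l (p.1 + p.2) * cf N w l p (hat w l X (gv w l p.1 p.2)) := by
    intro p
    rw [Mu_hom (c := dd N w l ((p.1 : ℕ) + p.2)) (fun a b h => by rw [h]) (hhg p.1 p.2), cf_smul]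
  rw [Finset.sum_congr rfl fun p _ => e1 p, Finset.sum_congr rfl fun p _ => e2 p,
    Fintype.sum_prod_type, Fintype.sum_prod_type]
  refine Finset.sum_congr rfl fun j _ => ?_
  rw [Finset.sum_comm]
  refine Finset.sum_congr rfl fun r _ => ?_
  rw [← hdds j j.2 r r.2, Finset.sum_mul]
  have h5 : ∑ k : Fin N, (if r ≤ k then l ^ 2 * w ^ (-2 - 2 * ((j : ℤ) + (k : ℕ))) *
      (aa w l j k r * G0 ^ ((k : ℕ) - r)) * cf N w l (j, r) (hat w l X (gv w l j r)) else 0) =
      ∑ k ∈ range N, (if (r : ℕ) ≤ k then l ^ 2 * w ^ (-2 - 2 * ((j : ℤ) + (k : ℕ))) *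
      (aa w l j k r * G0 ^ ((k : ℕ) - r)) * cf N w l (j, r) (hat w l X (gv w l j r)) else 0) := by
    rw [Finset.sum_range]
    refine Finset.sum_congr rfl fun k _ => ?_
    by_cases h : r ≤ k
    · have h' : (r : ℕ) ≤ k := h
      rw [if_pos h, if_pos h']
    · have h' : ¬ (r : ℕ) ≤ k := h
      rw [if_neg h, if_neg h']
  refine h5.trans ?_
  rw [← Finset.sum_filter]
  refine Finset.sum_congr ?_ fun k _ => rfl
  ext k
  simp only [Finset.mem_filter, Finset.mem_range, Finset.mem_Ico]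
  tauto

end Pool.Agent.Y494.CB
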